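import Pool.Agent.H1.CC.Fin

/-!
Asymptotics of the clique chromatic number of the binomial random graph `G(n,p)` for
`n^(-1/3+ε) ≤ p ≤ n^(-ε)`.
-/

set_option autoImplicit false
set_option linter.unusedSectionVars false

namespace Pool.Agent.Results.MP_b09bc5_pr.CliqueChromatic

open Filter Finset Pool.Agent.H1.CC

/-- `c` is a clique colouring of `G`: no inclusion-maximal clique of `G` with at least two
vertices is monochromatic. -/
def IsCliqueColouring {V : Type*} (G : SimpleGraph V) {k : ℕ} (c : V → Fin k) : Prop :=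
  ∀ K : Set V, Maximal G.IsClique K → K.Nontrivial → ∃ u ∈ K, ∃ v ∈ K, c u ≠ c v

/-- The clique chromatic number: the least number of colours in a clique colouring. -/
noncomputable def cliqueChromaticNumber {V : Type*} (G : SimpleGraph V) : ℕ :=
  sInf {k : ℕ | ∃ c : V → Fin k, IsCliqueColouring G c}

open Classical in
/-- The probability that the binomial random graph on `n` vertices, in which each pair is joined
independently with probability `p`, has the property `P`. -/
noncomputable def gnpProb (n : ℕ) (p : ℝ) (P : SimpleGraph (Fin n) → Prop) : ℝ :=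
  ∑ G : SimpleGraph (Fin n),
    if P G then p ^ G.edgeSet.ncard * (1 - p) ^ (n.choose 2 - G.edgeSet.ncard) else 0

/-- `F(n,p)`, the supremum over the integers `i ≥ 2` of
`log n + (1 + i/2) log p - n p^i / (i - 1)`. -/
noncomputable def F (n : ℕ) (p : ℝ) : ℝ :=
  sSup {y : ℝ | ∃ i : ℕ, 2 ≤ i ∧
    y = Real.log n + (1 + (i : ℝ) / 2) * Real.log p - (n : ℝ) * p ^ i / ((i : ℝ) - 1)}

lemma F_eq (n : ℕ) (p : ℝ) : F n p = FF n p := by
  unfold F FF iSup
  congr 1
  ext y
  constructor
  · rintro ⟨i, hi, rfl⟩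
    refine ⟨i - 2, ?_⟩
    have : i - 2 + 2 = i := by omega
    simp only [this]
    rfl
  · rintro ⟨i, rfl⟩
    exact ⟨i + 2, by omega, rfl⟩

section transfer

variable {V : Type*} [DecidableEq V] [Fintype V]

/-- the graph with edge set `T` -/
def gr (T : Finset (Sym2 V)) : SimpleGraph V := SimpleGraph.fromEdgeSet (T : Set (Sym2 V))

lemma gr_adj {T : Finset (Sym2 V)} {u v : V} : (gr T).Adj u v ↔ s(u, v) ∈ T ∧ u ≠ v := by
  unfold gr
  rw [SimpleGraph.fromEdgeSet_adj, Finset.mem_coe]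

lemma gr_edgeSet {T : Finset (Sym2 V)} (hT : T ⊆ allE V) : (gr T).edgeSet = (T : Set (Sym2 V)) := by
  ext e
  induction e using Sym2.ind with
  | _ u v =>
    rw [SimpleGraph.mem_edgeSet, gr_adj, Finset.mem_coe]
    constructor
    · exact fun h => h.1
    · exact fun h => ⟨h, mem_allE.1 (hT h)⟩

lemma gr_clique {T : Finset (Sym2 V)} {K : Finset V} :
    (gr T).IsClique (K : Set V) ↔ ins K ⊆ T := by
  rw [SimpleGraph.isClique_iff]
  constructor
  · intro h e he
    obtain ⟨u, hu, v, hv, huv, rfl⟩ := mem_ins'.1 he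
    exact (gr_adj.1 (h (Finset.mem_coe.2 hu) (Finset.mem_coe.2 hv) huv)).1
  · intro h u hu v hv huv
    exact gr_adj.2 ⟨h (mem_ins.2 ⟨Finset.mem_coe.1 hu, Finset.mem_coe.1 hv, huv⟩), huv⟩

lemma gr_maximal {T : Finset (Sym2 V)} {K : Finset V} :
    Maximal (gr T).IsClique (K : Set V) ↔ ins K ⊆ T ∧ ∀ w, w ∉ K → ∃ v ∈ K, s(w, v) ∉ T := by
  constructor
  · intro h
    refine ⟨gr_clique.1 h.prop, ?_⟩
    intro w hw
    by_contra hcon
    push Not at hcon
    have h1 : (gr T).IsClique ((insert w K : Finset V) : Set V) := by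
      rw [gr_clique]
      intro e he
      obtain ⟨u, hu, v, hv, huv, rfl⟩ := mem_ins'.1 he
      rcases Finset.mem_insert.1 hu with hu1 | hu1
      · rcases Finset.mem_insert.1 hv with hv1 | hv1
        · exact absurd (hu1.trans hv1.symm) huv
        · rw [hu1]; exact hcon v hv1
      · rcases Finset.mem_insert.1 hv with hv1 | hv1
        · rw [hv1, Sym2.eq_swap]; exact hcon u hu1
        · exact gr_clique.1 h.prop (mem_ins.2 ⟨hu1, hv1, huv⟩)
    have h2 := h.le_of_ge h1 (by
      intro v hv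
      exact Finset.mem_coe.2 (Finset.mem_insert_of_mem (Finset.mem_coe.1 hv)))
    exact hw (Finset.mem_coe.1 (h2 (Finset.mem_coe.2 (Finset.mem_insert_self w K))))
  · rintro ⟨h1, h2⟩
    refine ⟨gr_clique.2 h1, ?_⟩
    intro S hS hKS w hwS
    by_contra hcon
    obtain ⟨v, hv, hvn⟩ := h2 w (fun h => hcon (Finset.mem_coe.2 h))
    have hwv : w ≠ v := fun h => hcon (h ▸ Finset.mem_coe.2 hv)
    have := hS hwS (hKS (Finset.mem_coe.2 hv)) hwv
    exact hvn (gr_adj.1 this).1

lemma exists_col {T : Finset (Sym2 V)} {k : ℕ} :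
    (∃ c : V → Fin k, IsCliqueColouring (gr T) c) ↔ CCol T k := by
  classical
  constructor
  · rintro ⟨c, hc⟩
    refine ⟨c, ?_⟩
    intro K h2 hK hmax
    have hnt : (K : Set V).Nontrivial := Finset.one_lt_card_iff_nontrivial.1 h2
    obtain ⟨u, hu, v, hv, huv⟩ := hc K (gr_maximal.2 ⟨hK, hmax⟩) hnt
    exact ⟨u, Finset.mem_coe.1 hu, v, Finset.mem_coe.1 hv, huv⟩
  · rintro ⟨c, hc⟩
    refine ⟨c, ?_⟩
    intro K hK hnt
    have hKf : ((K.toFinset : Finset V) : Set V) = K := Set.coe_toFinset K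
    rw [← hKf] at hK hnt
    obtain ⟨h1, h2⟩ := gr_maximal.1 hK
    obtain ⟨u, hu, v, hv, huv⟩ := hc K.toFinset (Finset.one_lt_card_iff_nontrivial.2 hnt) h1 h2
    exact ⟨u, Set.mem_toFinset.1 hu, v, Set.mem_toFinset.1 hv, huv⟩

end transfer

lemma chi_le_iff {n : ℕ} {T : Finset (Sym2 (Fin n))} {k : ℕ} :
    cliqueChromaticNumber (gr T) ≤ k ↔ CCol T k := by
  unfold cliqueChromaticNumber
  have hset : {k : ℕ | ∃ c : Fin n → Fin k, IsCliqueColouring (gr T) c} = {k | CCol T k} := by
    ext k; exact exists_col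
  rw [hset]
  have hne : {k | CCol T k}.Nonempty := by
    refine ⟨n, id, ?_⟩
    intro K hK _ _
    obtain ⟨u, hu, v, hv, huv⟩ := Finset.one_lt_card.1 (by omega : 1 < K.card)
    exact ⟨u, hu, v, hv, huv⟩
  constructor
  · intro h
    exact CCol_mono h (Nat.sInf_mem hne)
  · intro h
    exact Nat.sInf_le h

lemma gnpProb_eq (n : ℕ) (p : ℝ) (P : SimpleGraph (Fin n) → Prop) :
    gnpProb n p P = Pr p (allE (Fin n)) (fun T => P (gr T)) := by
  classical
  unfold gnpProb Pr Ex
  symm
  apply Finset.sum_nbij' (fun T => gr T) (fun G => (allE (Fin n)).filter fun e => e ∈ G.edgeSet)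
  · intro T _; exact Finset.mem_univ _
  · intro G _
    exact Finset.mem_powerset.2 (Finset.filter_subset _ _)
  · intro T hT
    have hT' := Finset.mem_powerset.1 hT
    ext e
    rw [Finset.mem_filter, gr_edgeSet hT', Finset.mem_coe]
    exact ⟨fun h => h.2, fun h => ⟨hT' h, h⟩⟩
  · intro G _
    ext u v
    rw [gr_adj, Finset.mem_filter, mem_allE, SimpleGraph.mem_edgeSet]
    exact ⟨fun h => h.1.2, fun h => ⟨⟨h.ne, h⟩, h.ne⟩⟩
  · intro T hT
    have hT' := Finset.mem_powerset.1 hT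
    rw [gr_edgeSet hT', Set.ncard_coe_finset, Finset.prod_ite, Finset.prod_const,
      Finset.prod_const]
    have h1 : (allE (Fin n)).filter (fun e => e ∈ T) = T := by
      ext e
      rw [Finset.mem_filter]
      exact ⟨fun h => h.2, fun h => ⟨hT' h, h⟩⟩
    have h2 : (allE (Fin n)).filter (fun e => ¬ e ∈ T) = allE (Fin n) \ T := by
      ext e
      rw [Finset.mem_filter, Finset.mem_sdiff]
    have h3 : (allE (Fin n) \ T).card = n.choose 2 - T.card := by
      rw [Finset.card_sdiff_of_subset hT']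
      congr 1
      unfold allE
      rw [card_ins, Finset.card_univ, Fintype.card_fin]
    rw [h1, h2, h3]
    beta_reduce
    by_cases h : P (gr T)
    · rw [ind_of h, if_pos h, mul_one]
    · rw [ind_not_of h, if_neg h, mul_zero]

lemma gnpProb_le_one {n : ℕ} {p : ℝ} (h0 : 0 ≤ p) (h1 : p ≤ 1) (P : SimpleGraph (Fin n) → Prop) :
    gnpProb n p P ≤ 1 := by
  rw [gnpProb_eq]; exact Pr_le_one h0 h1 _

lemma gnpProb_mono {n : ℕ} {p : ℝ} (h0 : 0 ≤ p) (h1 : p ≤ 1) {P Q : SimpleGraph (Fin n) → Prop}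
    (h : ∀ G, P G → Q G) : gnpProb n p P ≤ gnpProb n p Q := by
  rw [gnpProb_eq, gnpProb_eq]; exact Pr_mono h0 h1 fun T _ hT => h _ hT

/-- the range of `p` in logarithmic form -/
lemma range_log {ε : ℝ} {p : ℕ → ℝ}
    (hp : ∀ᶠ n : ℕ in atTop, (n : ℝ) ^ (-(1 / 3 : ℝ) + ε) ≤ p n ∧ p n ≤ (n : ℝ) ^ (-ε)) :
    ∀ᶠ n : ℕ in atTop, 0 < p n ∧ ε * Real.log n ≤ -Real.log (p n) ∧
      -Real.log (p n) ≤ (1 / 3 - ε) * Real.log n := by
  filter_upwards [hp, eventually_ge_atTop 1] with n hn hn1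
  have hn0 : (0:ℝ) < n := by exact_mod_cast hn1
  have hp0 : 0 < p n := lt_of_lt_of_le (Real.rpow_pos_of_pos hn0 _) hn.1
  refine ⟨hp0, ?_, ?_⟩
  · have := Real.log_le_log hp0 hn.2
    rw [Real.log_rpow hn0] at this
    linarith
  · have := Real.log_le_log (Real.rpow_pos_of_pos hn0 _) hn.1
    rw [Real.log_rpow hn0] at this
    linarith

lemma tendsto_log_nat : Tendsto (fun n : ℕ => Real.log (n : ℝ)) atTop atTop :=
  Real.tendsto_log_atTop.comp tendsto_natCast_atTop_atTop

/-- the main estimate -/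
lemma main_half {ε : ℝ} (hε : 0 < ε) (hε1 : ε ≤ 1) {p : ℕ → ℝ}
    (hp : ∀ᶠ n : ℕ in atTop, 0 < p n ∧ ε * Real.log n ≤ -Real.log (p n) ∧
      -Real.log (p n) ≤ (1 / 3 - ε) * Real.log n) {δ : ℝ} (hδ : 0 < δ) (hδ1 : δ < 1) :
    Tendsto (fun n : ℕ => gnpProb n (p n) (fun G =>
      (1 - δ) * (FF n (p n) / p n) ≤ (cliqueChromaticNumber G : ℝ) ∧
      (cliqueChromaticNumber G : ℝ) ≤ (1 + δ) * (FF n (p n) / p n))) atTop (nhds 1) := by
  obtain ⟨η, hη, hup⟩ := upper_final hε hε1 hδ
  have hlow := lower_final hε hδ hδ1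
  set err : ℕ → ℝ := fun n => 6 * Real.exp (-Real.log n) +
    (Real.exp (-(η / 4 * Real.log n)) + Real.exp (-Real.log n)) with herr
  have herr0 : Tendsto err atTop (nhds 0) := by
    have h1 : Tendsto (fun l : ℝ => 6 * Real.exp (-l) + (Real.exp (-(η / 4 * l)) +
        Real.exp (-l))) atTop (nhds 0) := by
      have a1 := (Real.tendsto_exp_neg_atTop_nhds_zero).const_mul (6:ℝ)
      have a2 := tendsto_exp_neg_mul (a := η / 4) (by positivity)
      have a3 := Real.tendsto_exp_neg_atTop_nhds_zero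
      have := a1.add (a2.add a3)
      simpa using this
    exact h1.comp tendsto_log_nat
  have hlow' : Tendsto (fun n => 1 - err n) atTop (nhds 1) := by
    have := herr0.const_sub 1
    simpa using this
  have hge : ∀ᶠ n : ℕ in atTop, 0 < FF n (p n) := by
    have hidx := tendsto_log_nat.eventually (exists_index hε)
    have hbig := tendsto_log_nat.eventually
      (eventually_ge_atTop (2 / min (1 / 8) (3 * ε)))
    filter_upwards [hidx, hbig, hp, eventually_ge_atTop 2] with n h1 h2 h3 h4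
    obtain ⟨hp0, hL1, hL2⟩ := h3
    obtain ⟨j, hj4, _, _, _, hjt⟩ := h1 n (p n) rfl hp0 hL1 hL2
    have hlog : 0 < Real.log n := Real.log_pos (by exact_mod_cast h4)
    have hp1 : p n ≤ 1 := by
      by_contra hcon
      push Not at hcon
      have := Real.log_pos hcon
      have := mul_pos hε hlog
      linarith
    have hm : 0 < min (1 / 8) (3 * ε) := lt_min (by norm_num) (by positivity)
    rw [div_le_iff₀ hm] at h2
    have := term_le_FF (n := n) hp0 hp1 (i := j) (by omega)
    linarith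
  refine tendsto_of_tendsto_of_tendsto_of_le_of_le' hlow' tendsto_const_nhds ?_ ?_
  · filter_upwards [tendsto_log_nat.eventually hup, tendsto_log_nat.eventually hlow, hp,
      hge, eventually_ge_atTop 2] with n hu hl hpn hF hn2
    obtain ⟨hp0, hL1, hL2⟩ := hpn
    have hlog : 0 < Real.log n := Real.log_pos (by exact_mod_cast hn2)
    have hp1 : p n ≤ 1 := by
      by_contra hcon
      push Not at hcon
      have := Real.log_pos hcon
      have := mul_pos hε hlog
      linarith
    set f : ℝ := FF n (p n) / p n with hf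
    have hf0 : 0 < f := div_pos hF hp0
    set k : ℕ := ⌊(1 - δ) * f⌋₊ with hk
    set K : ℕ := ⌊(1 + δ) * f⌋₊ with hK
    have hkf : (k:ℝ) ≤ (1 - δ) * FF n (p n) / p n := by
      rw [mul_div_assoc]
      exact Nat.floor_le (mul_nonneg (by linarith) hf0.le)
    have hKf : (1 + δ) * FF n (p n) / p n < (K:ℝ) + 1 := by
      rw [mul_div_assoc]
      exact Nat.lt_floor_add_one _
    have h1 := hl n k (p n) rfl hp0 hL1 hL2 hkf
    have h2 := hu n K (p n) rfl hp0 hL1 hL2 hKf
    rw [gnpProb_eq]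
    have h3 : Pr (p n) (allE (Fin n)) (fun T => ¬ ((1 - δ) * f ≤ (cliqueChromaticNumber (gr T) : ℝ) ∧
        (cliqueChromaticNumber (gr T) : ℝ) ≤ (1 + δ) * f)) ≤ err n := by
      have h4 : Pr (p n) (allE (Fin n)) (fun T => ¬ ((1 - δ) * f ≤
          (cliqueChromaticNumber (gr T) : ℝ) ∧
          (cliqueChromaticNumber (gr T) : ℝ) ≤ (1 + δ) * f)) ≤
          Pr (p n) (allE (Fin n)) (fun T => CCol T k ∨ ¬ CCol T K) := by
        apply Pr_mono hp0.le hp1
        intro T _ hT
        rw [not_and_or] at hT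
        rcases hT with hT | hT
        · left
          push Not at hT
          rw [← chi_le_iff]
          exact Nat.le_floor hT.le
        · right
          push Not at hT
          rw [← chi_le_iff]
          intro hle
          have h5 : (cliqueChromaticNumber (gr T) : ℝ) ≤ K := by exact_mod_cast hle
          have h6 : (K:ℝ) ≤ (1 + δ) * f := Nat.floor_le (by positivity)
          linarith
      refine h4.trans ((Pr_or_le hp0.le hp1 _ _).trans ?_)
      rw [herr]
      exact add_le_add h1 h2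
    rw [Pr_compl] at h3
    linarith
  · filter_upwards [hp, eventually_ge_atTop 2] with n hpn hn2
    obtain ⟨hp0, hL1, hL2⟩ := hpn
    have hlog : 0 < Real.log n := Real.log_pos (by exact_mod_cast hn2)
    have hp1 : p n ≤ 1 := by
      by_contra hcon
      push Not at hcon
      have := Real.log_pos hcon
      have := mul_pos hε hlog
      linarith
    exact gnpProb_le_one hp0.le hp1 _

/-- the main theorem in terms of `FF` -/
lemma main_any {ε : ℝ} (hε : 0 < ε) {p : ℕ → ℝ}
    (hp : ∀ᶠ n : ℕ in atTop, 0 < p n ∧ ε * Real.log n ≤ -Real.log (p n) ∧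
      -Real.log (p n) ≤ (1 / 3 - ε) * Real.log n) {δ : ℝ} (hδ : 0 < δ) :
    Tendsto (fun n : ℕ => gnpProb n (p n) (fun G =>
      (1 - δ) * (FF n (p n) / p n) ≤ (cliqueChromaticNumber G : ℝ) ∧
      (cliqueChromaticNumber G : ℝ) ≤ (1 + δ) * (FF n (p n) / p n))) atTop (nhds 1) := by
  set ε' : ℝ := min ε 1 with hε'
  have hε'0 : 0 < ε' := lt_min hε (by norm_num)
  set δ' : ℝ := min δ (1 / 2) with hδ'
  have hδ'0 : 0 < δ' := lt_min hδ (by norm_num)
  have hδ'1 : δ' < 1 := lt_of_le_of_lt (min_le_right _ _) (by norm_num)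
  have hp' : ∀ᶠ n : ℕ in atTop, 0 < p n ∧ ε' * Real.log n ≤ -Real.log (p n) ∧
      -Real.log (p n) ≤ (1 / 3 - ε') * Real.log n := by
    filter_upwards [hp, eventually_ge_atTop 1] with n hn hn1
    have hlog : 0 ≤ Real.log n := Real.log_nonneg (by exact_mod_cast hn1)
    have h1 : ε' * Real.log n ≤ ε * Real.log n :=
      mul_le_mul_of_nonneg_right (min_le_left _ _) hlog
    refine ⟨hn.1, by linarith [hn.2.1], ?_⟩
    have h2 : (1 / 3 - ε) * Real.log n ≤ (1 / 3 - ε') * Real.log n :=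
      mul_le_mul_of_nonneg_right (by linarith [min_le_left ε 1]) hlog
    linarith [hn.2.2]
  have hmain := main_half hε'0 (min_le_right _ _) hp' hδ'0 hδ'1
  refine tendsto_of_tendsto_of_tendsto_of_le_of_le' hmain tendsto_const_nhds ?_ ?_
  · filter_upwards [hp, eventually_ge_atTop 2, tendsto_log_nat.eventually (exists_index hε),
      tendsto_log_nat.eventually (eventually_ge_atTop (2 / min (1 / 8) (3 * ε)))]
      with n hpn hn2 h1 h2
    obtain ⟨hp0, hL1, hL2⟩ := hpn
    have hlog : 0 < Real.log n := Real.log_pos (by exact_mod_cast hn2)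
    have hp1 : p n ≤ 1 := by
      by_contra hcon
      push Not at hcon
      have := Real.log_pos hcon
      have := mul_pos hε hlog
      linarith
    obtain ⟨j, hj4, _, _, _, hjt⟩ := h1 n (p n) rfl hp0 hL1 hL2
    have hm : 0 < min (1 / 8) (3 * ε) := lt_min (by norm_num) (by positivity)
    rw [div_le_iff₀ hm] at h2
    have hF := term_le_FF (n := n) hp0 hp1 (i := j) (by omega)
    have hf : 0 ≤ FF n (p n) / p n := div_nonneg (by linarith) hp0.le
    apply gnpProb_mono hp0.le hp1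
    rintro G ⟨g1, g2⟩
    have hle : δ' ≤ δ := min_le_left _ _
    constructor
    · refine le_trans ?_ g1
      exact mul_le_mul_of_nonneg_right (by linarith) hf
    · refine g2.trans ?_
      exact mul_le_mul_of_nonneg_right (by linarith) hf
  · filter_upwards [hp, eventually_ge_atTop 2] with n hpn hn2
    obtain ⟨hp0, hL1, hL2⟩ := hpn
    have hlog : 0 < Real.log n := Real.log_pos (by exact_mod_cast hn2)
    have hp1 : p n ≤ 1 := by
      by_contra hcon
      push Not at hcon
      have := Real.log_pos hcon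
      have := mul_pos hε hlog
      linarith
    exact gnpProb_le_one hp0.le hp1 _

lemma log_pow_neg {x : ℝ} {n : ℕ} (hn : 1 ≤ n) :
    Real.log ((n:ℝ) ^ (-x)) = -(x * Real.log n) := by
  rw [Real.log_rpow (by exact_mod_cast hn)]; ring

/-- value of `FF` for `p = n^(-x)` -/
lemma FF_pow {x : ℝ} {r : ℕ} (hr : 3 ≤ r) (hx1 : 1 / ((r:ℝ) + 1) < x) (hx2 : x < 1 / (r:ℝ)) :
    Tendsto (fun n : ℕ => FF n ((n:ℝ) ^ (-x)) / Real.log n) atTop
      (nhds (1 - ((r:ℝ) + 3) / 2 * x)) := by
  have hr' : (3:ℝ) ≤ r := by exact_mod_cast hr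
  have hr0 : (0:ℝ) < r := by linarith
  have hx0 : 0 < x := lt_trans (by positivity) hx1
  rw [div_lt_iff₀ (by linarith)] at hx1
  rw [lt_div_iff₀ hr0] at hx2
  -- everything in terms of `l = log n`
  have hκ : ∀ n : ℕ, 1 ≤ n → ∀ i : ℕ, (n:ℝ) * ((n:ℝ) ^ (-x)) ^ i =
      Real.exp ((1 - i * x) * Real.log n) := by
    intro n hn i
    have hn0 : (0:ℝ) < n := by exact_mod_cast hn
    have h1 : (n:ℝ) ^ (-x) = Real.exp (-(x * Real.log n)) := by
      rw [Real.rpow_def_of_pos hn0]; congr 1; ring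
    rw [h1, ← Real.exp_nat_mul]
    nth_rewrite 1 [← Real.exp_log hn0]
    rw [← Real.exp_add]
    congr 1; ring
  have t1 : Tendsto (fun l : ℝ => Real.exp (-((((r:ℝ) + 1) * x - 1) * l))) atTop (nhds 0) :=
    tendsto_exp_neg_mul (by linarith)
  have t2 : ∀ᶠ l : ℝ in atTop, l * Real.exp (-((1 - r * x) * l)) ≤ 1 / (r * x) :=
    (tendsto_l_exp (ε := 1 - r * x) (by linarith)).eventually_le_const (by positivity)
  set lo : ℝ → ℝ := fun l => 1 - ((r:ℝ) + 3) / 2 * x -
    Real.exp (-((((r:ℝ) + 1) * x - 1) * l)) / (r * l) with hlo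
  set hi : ℝ → ℝ := fun l => 1 - ((r:ℝ) + 3) / 2 * x + ((r:ℝ) + 1) * x / 2 *
    Real.exp (-(x * l)) with hhi
  have tlo : Tendsto lo atTop (nhds (1 - ((r:ℝ) + 3) / 2 * x)) := by
    have h1 : Tendsto (fun l : ℝ => (r:ℝ) * l) atTop atTop := tendsto_id.const_mul_atTop hr0
    have h2 := t1.div_atTop h1
    have h3 := h2.const_sub (1 - ((r:ℝ) + 3) / 2 * x)
    rw [sub_zero] at h3
    exact h3
  have thi : Tendsto hi atTop (nhds (1 - ((r:ℝ) + 3) / 2 * x)) := by
    have h2 := (tendsto_exp_neg_mul hx0).const_mul (((r:ℝ) + 1) * x / 2)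
    have h3 := h2.const_add (1 - ((r:ℝ) + 3) / 2 * x)
    rw [mul_zero, add_zero] at h3
    exact h3
  refine tendsto_of_tendsto_of_tendsto_of_le_of_le' (tlo.comp tendsto_log_nat)
    (thi.comp tendsto_log_nat) ?_ ?_
  · filter_upwards [eventually_ge_atTop 2] with n hn2
    have hlog : 0 < Real.log n := Real.log_pos (by exact_mod_cast hn2)
    have hn0 : (0:ℝ) < n := by exact_mod_cast (by omega : 0 < n)
    have hp0 : 0 < (n:ℝ) ^ (-x) := Real.rpow_pos_of_pos hn0 _
    have hp1 : (n:ℝ) ^ (-x) ≤ 1 :=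
      Real.rpow_le_one_of_one_le_of_nonpos (by exact_mod_cast (by omega : 1 ≤ n)) (by linarith)
    have h1 := term_le_FF (n := n) hp0 hp1 (i := r + 1) (by omega)
    rw [Function.comp, le_div_iff₀ hlog]
    refine le_trans (le_of_eq ?_) h1
    rw [term, hκ n (by omega), log_pow_neg (by omega), hlo]
    push_cast
    have h2 : (r:ℝ) + 1 - 1 = r := by ring
    rw [h2]
    have h3 : -((((r:ℝ) + 1) * x - 1) * Real.log n) = (1 - ((r:ℝ) + 1) * x) * Real.log n := by ring
    rw [h3]
    field_simp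
    ring
  · filter_upwards [eventually_ge_atTop 2, tendsto_log_nat.eventually t2,
      tendsto_log_nat.eventually (eventually_ge_atTop (1 / x))] with n hn2 ht2 hlx
    have hlog : 0 < Real.log n := Real.log_pos (by exact_mod_cast hn2)
    have hn0 : (0:ℝ) < n := by exact_mod_cast (by omega : 0 < n)
    have hn1 : 1 ≤ n := by omega
    have hp0 : 0 < (n:ℝ) ^ (-x) := Real.rpow_pos_of_pos hn0 _
    have hp1 : (n:ℝ) ^ (-x) ≤ 1 :=
      Real.rpow_le_one_of_one_le_of_nonpos (by exact_mod_cast hn1) (by linarith)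
    rw [div_le_iff₀ hx0] at hlx
    have h1 := FF_le_term (n := n) hp0 hp1 (j := r + 1) (by omega) ?_ ?_
    · rw [Function.comp, div_le_iff₀ hlog]
      refine h1.trans ?_
      rw [term, hκ n hn1, log_pow_neg hn1, hhi]
      push_cast
      have h2 : (r:ℝ) + 1 - 1 = r := by ring
      have h4 : (n:ℝ) ^ (-x) = Real.exp (-(x * Real.log n)) := by
        rw [Real.rpow_def_of_pos hn0]; congr 1; ring
      rw [h2, h4]
      have h3 : 0 ≤ Real.exp ((1 - ((r:ℝ) + 1) * x) * Real.log n) / r := by positivity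
      nlinarith
    · rw [hκ n hn1, log_pow_neg hn1, neg_neg]
      push_cast
      have h2 : Real.exp ((1 - ((r:ℝ) + 1) * x) * Real.log n) ≤ 1 := by
        apply Real.exp_le_one_iff.2
        exact mul_nonpos_of_nonpos_of_nonneg (by linarith) hlog.le
      have h3 : 1 ≤ x * Real.log n := by linarith
      nlinarith
    · intro i hi2 hi3
      rw [hκ n hn1, log_pow_neg hn1, neg_neg]
      have hir : (i:ℝ) ≤ r := by exact_mod_cast (by omega : i ≤ r)
      have h2 : Real.exp ((1 - r * x) * Real.log n) ≤ Real.exp ((1 - i * x) * Real.log n) := by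
        apply Real.exp_le_exp.2
        apply mul_le_mul_of_nonneg_right _ hlog.le
        nlinarith
      refine le_trans ?_ h2
      have h3 := mul_le_mul_of_nonneg_right ht2
        (Real.exp_pos ((1 - r * x) * Real.log n)).le
      rw [mul_assoc, ← Real.exp_add] at h3
      have h4 : -((1 - r * x) * Real.log n) + (1 - r * x) * Real.log n = 0 := by ring
      rw [h4, Real.exp_zero, mul_one] at h3
      have hrx : 0 < (r:ℝ) * x := by positivity
      have h5 : Real.log n * (r * x) ≤ Real.exp ((1 - r * x) * Real.log n) := by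
        have := mul_le_mul_of_nonneg_right h3 hrx.le
        have h6 : 1 / (r * x) * Real.exp ((1 - r * x) * Real.log n) * (r * x) =
            Real.exp ((1 - r * x) * Real.log n) := by field_simp
        linarith
      refine le_trans ?_ h5
      have h7 : 0 < x * Real.log n := by positivity
      nlinarith

/-- the leading constant for `p = n^(-x)` -/
lemma main_pow {x : ℝ} {r : ℕ} (hr : 3 ≤ r) (hx1 : 1 / ((r:ℝ) + 1) < x) (hx2 : x < 1 / (r:ℝ))
    {δ : ℝ} (hδ : 0 < δ) :
    Tendsto (fun n : ℕ => gnpProb n ((n:ℝ) ^ (-x)) (fun G =>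
      |(cliqueChromaticNumber G : ℝ) * (n:ℝ) ^ (-x) / Real.log n - (1 - ((r:ℝ) + 3) / 2 * x)| ≤ δ))
      atTop (nhds 1) := by
  have hr' : (3:ℝ) ≤ r := by exact_mod_cast hr
  have hx0 : 0 < x := lt_trans (by positivity) hx1
  have hx3 : x < 1 / 3 := by
    refine hx2.trans_le ?_
    exact one_div_le_one_div_of_le (by norm_num) hr'
  set ε : ℝ := min x (1 / 3 - x) with hε
  have hε0 : 0 < ε := lt_min hx0 (by linarith)
  have hp : ∀ᶠ n : ℕ in atTop, 0 < (n:ℝ) ^ (-x) ∧ ε * Real.log n ≤ -Real.log ((n:ℝ) ^ (-x)) ∧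
      -Real.log ((n:ℝ) ^ (-x)) ≤ (1 / 3 - ε) * Real.log n := by
    filter_upwards [eventually_ge_atTop 1] with n hn
    have hlog : 0 ≤ Real.log n := Real.log_nonneg (by exact_mod_cast hn)
    have hn0 : (0:ℝ) < n := by exact_mod_cast hn
    rw [log_pow_neg hn, neg_neg]
    refine ⟨Real.rpow_pos_of_pos hn0 _, ?_, ?_⟩
    · exact mul_le_mul_of_nonneg_right (min_le_left _ _) hlog
    · apply mul_le_mul_of_nonneg_right _ hlog
      have := min_le_right x (1 / 3 - x)
      linarith
  have hmain := main_any hε0 hp (δ := δ / 2) (by positivity)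
  have hFF := (FF_pow hr hx1 hx2).eventually (Metric.closedBall_mem_nhds _
    (show 0 < δ / 2 by positivity))
  refine tendsto_of_tendsto_of_tendsto_of_le_of_le' hmain tendsto_const_nhds ?_ ?_
  · filter_upwards [hFF, eventually_ge_atTop 2,
      tendsto_log_nat.eventually (exists_index hε0), hp,
      tendsto_log_nat.eventually (eventually_ge_atTop (2 / min (1 / 8) (3 * ε)))]
      with n hn hn2 hidx hpn h2
    obtain ⟨hp0, hL1, hL2⟩ := hpn
    have hlog : 0 < Real.log n := Real.log_pos (by exact_mod_cast hn2)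
    have hp1 : (n:ℝ) ^ (-x) ≤ 1 :=
      Real.rpow_le_one_of_one_le_of_nonpos (by exact_mod_cast (by omega : 1 ≤ n)) (by linarith)
    obtain ⟨j, hj4, _, _, _, hjt⟩ := hidx n _ rfl hp0 hL1 hL2
    have hm : 0 < min (1 / 8) (3 * ε) := lt_min (by norm_num) (by positivity)
    rw [div_le_iff₀ hm] at h2
    have hF := term_le_FF (n := n) hp0 hp1 (i := j) (by omega)
    have hF0 : 0 ≤ FF n ((n:ℝ) ^ (-x)) := by linarith
    have hFl := FF_le_log (n := n) hp0 hp1
    apply gnpProb_mono hp0.le hp1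
    rintro G ⟨g1, g2⟩
    rw [Real.dist_eq] at hn
    set f := FF n ((n:ℝ) ^ (-x)) with hf
    set q := (n:ℝ) ^ (-x) with hq
    set χ := (cliqueChromaticNumber G : ℝ) with hχ
    have h3 : (1 - δ / 2) * (f / Real.log n) ≤ χ * q / Real.log n := by
      rw [← mul_div_assoc]
      apply div_le_div_of_nonneg_right _ hlog.le
      rw [← mul_div_assoc, div_le_iff₀ hp0] at g1
      exact g1
    have h4 : χ * q / Real.log n ≤ (1 + δ / 2) * (f / Real.log n) := by
      rw [← mul_div_assoc]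
      apply div_le_div_of_nonneg_right _ hlog.le
      rw [← mul_div_assoc, le_div_iff₀ hp0] at g2
      exact g2
    have h5 : f / Real.log n ≤ 1 := by rw [div_le_one hlog]; exact hFl
    have h6 : 0 ≤ f / Real.log n := div_nonneg hF0 hlog.le
    rw [abs_le] at hn ⊢
    constructor
    · nlinarith
    · nlinarith
  · filter_upwards [eventually_ge_atTop 2] with n hn2
    have hn0 : (0:ℝ) < n := by exact_mod_cast (by omega : 0 < n)
    exact gnpProb_le_one (Real.rpow_pos_of_pos hn0 _).le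
      (Real.rpow_le_one_of_one_le_of_nonpos (by exact_mod_cast (by omega : 1 ≤ n)) (by linarith)) _

/-- **Asymptotics of the clique chromatic number of `G(n,p)`.**
If `n^(-1/3+ε) ≤ p ≤ n^(-ε)` for large `n`, then with high probability
`χ_c(G(n,p)) = (1+o(1)) F(n,p)/p` with
`F(n,p) = sup_{i ≥ 2} (log n + (1 + i/2) log p - n p^i/(i-1))`.
In particular, for `p = n^(-x)` with `1/(r+1) < x < 1/r`, `r ≥ 3`, with high probability
`χ_c(G(n,p)) = (1 - (r+3)x/2 + o(1)) log n / p`. -/
theorem result :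
    (∀ (ε : ℝ) (p : ℕ → ℝ), 0 < ε →
      (∀ᶠ n : ℕ in atTop, (n : ℝ) ^ (-(1 / 3 : ℝ) + ε) ≤ p n ∧ p n ≤ (n : ℝ) ^ (-ε)) →
      ∀ δ : ℝ, 0 < δ →
        Tendsto (fun n : ℕ => gnpProb n (p n) (fun G =>
          (1 - δ) * (F n (p n) / p n) ≤ (cliqueChromaticNumber G : ℝ) ∧
          (cliqueChromaticNumber G : ℝ) ≤ (1 + δ) * (F n (p n) / p n))) atTop (nhds 1)) ∧
    (∀ (r : ℕ) (x : ℝ), 3 ≤ r → 1 / ((r : ℝ) + 1) < x → x < 1 / (r : ℝ) → ∀ δ : ℝ, 0 < δ →
      Tendsto (fun n : ℕ => gnpProb n ((n : ℝ) ^ (-x)) (fun G =>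
        |(cliqueChromaticNumber G : ℝ) * (n : ℝ) ^ (-x) / Real.log n -
          (1 - ((r : ℝ) + 3) / 2 * x)| ≤ δ)) atTop (nhds 1)) := by
  refine ⟨?_, ?_⟩
  · intro ε p hε hp δ hδ
    simp only [F_eq]
    exact main_any hε (range_log hp) hδ
  · intro r x hr hx1 hx2 δ hδ
    exact main_pow hr hx1 hx2 hδ

end Pool.Agent.Results.MP_b09bc5_pr.CliqueChromatic
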